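import Pool.Agent.Helper68.EP.St4

set_option autoImplicit false

open MeasureTheory Set Filter Topology
open scoped ENNReal RealInnerProductSpace

namespace Pool.Agent.Helper21.EP

open Pool.Agent.Helper68.EP Pool.Agent.Helper20.RG
open Pool.Agent.Helper20.RL (RQ Rich BM Fml)

/-- the power `2^(g u)` -/
noncomputable def XX (P : Par) (u : ℕ) : ℝ := (2 : ℝ) ^ (P.g * u)

lemma g_pos (P : Par) : 0 < P.g := by
  unfold Par.g
  have := P.hs
  linarith [div_pos (show (0:ℝ) < P.s - 1 by linarith) (show (0:ℝ) < 64 by norm_num)]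

lemma g_lt (P : Par) : P.g < 1 := by
  unfold Par.g
  have h1 := P.hsp
  have h2 := P.hp
  rw [div_lt_one (by norm_num)]
  linarith

lemma eps_le_g (P : Par) : P.ε ≤ P.g := by
  unfold Par.g
  have := P.hεs
  linarith

lemma XX_one (P : Par) (u : ℕ) : 1 ≤ XX P u :=
  Real.one_le_rpow (by norm_num) (mul_nonneg (g_pos P).le (Nat.cast_nonneg u))

lemma XX_pow (P : Par) (u n : ℕ) : (2 : ℝ) ^ (-(n * P.g * u)) = (XX P u ^ n)⁻¹ := by
  unfold XX
  rw [Real.rpow_neg (by norm_num), ← Real.rpow_natCast, ← Real.rpow_mul (by norm_num)]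
  congr 2
  ring

lemma gap (P : Par) (u : ℕ) : (q1 P u : ℝ) - q0 P u ≤ P.g * u + (P.c0 + 2) := by
  have hu : (0:ℝ) ≤ u := Nat.cast_nonneg u
  have hp0 : (0:ℝ) ≤ P.p * u := by
    have := P.hs; have := P.hsp
    exact mul_nonneg (by linarith) hu
  have h1 : (q1 P u : ℝ) ≤ P.p * u + 1 + P.c0 := by
    unfold q1
    push_cast
    linarith [(Nat.ceil_lt_add_one hp0).le]
  have h2 : (P.p - P.ε) * u < (q0 P u : ℝ) + 1 := by
    unfold q0
    exact Nat.lt_floor_add_one _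
  have h3 : P.ε * u ≤ P.g * u := mul_le_mul_of_nonneg_right (eps_le_g P) hu
  nlinarith [h1, h2, h3]

/-- the ratio `2^q1 / 2^q` -/
lemma ratio_le (P : Par) (u q : ℕ) (hq : q0 P u ≤ q) :
    (2:ℝ) ^ q1 P u / 2 ^ q ≤ 2 ^ (P.c0 + 2) * XX P u := by
  have h1 := gap P u
  have h2 : (2:ℝ) ^ q1 P u / 2 ^ q = (2:ℝ) ^ ((q1 P u : ℝ) - q) := by
    rw [Real.rpow_sub (by norm_num), Real.rpow_natCast, Real.rpow_natCast]
  have h3 : (2:ℝ) ^ (P.c0 + 2) * XX P u = (2:ℝ) ^ (((P.c0 + 2 : ℕ) : ℝ) + P.g * u) := by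
    unfold XX
    rw [Real.rpow_add (by norm_num), Real.rpow_natCast]
  rw [h2, h3]
  apply Real.rpow_le_rpow_of_exponent_le (by norm_num)
  have : (q0 P u : ℝ) ≤ q := by exact_mod_cast hq
  push_cast
  linarith

lemma et_eq (P : Par) (u q : ℕ) : et P u q = 1 / (16 * ((2:ℝ) ^ q1 P u / 2 ^ q)) := by
  unfold et
  rw [zpow_sub₀ (by norm_num), zpow_sub₀ (by norm_num), zpow_natCast, zpow_natCast]
  have : (2:ℝ) ^ (4:ℤ) = 16 := by norm_num
  rw [this]
  have h1 : (0:ℝ) < 2 ^ q := by positivity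
  have h2 : (0:ℝ) < 2 ^ q1 P u := by positivity
  field_simp

lemma dd_eq (P : Par) (u : ℕ) : (2:ℝ) ^ u * DD P u = (XX P u ^ 64)⁻¹ := by
  rw [← XX_pow]
  unfold DD
  rw [← Real.rpow_natCast, ← Real.rpow_add (by norm_num)]
  congr 1
  unfold Par.g
  push_cast
  ring

lemma sub4 (a : ℝ) (ha : 0 ≤ a) (q : ℕ) : a / 2 ^ (q - 4) ≤ 16 * (a / 2 ^ q) := by
  have h : (2:ℝ) ^ q ≤ 16 * 2 ^ (q - 4) := by
    have : (2:ℝ) ^ q ≤ 2 ^ (q - 4 + 4) := pow_le_pow_right₀ (by norm_num) (by omega)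
    rw [pow_add] at this
    linarith
  have h1 : (0:ℝ) < 2 ^ q := by positivity
  have h2 : (0:ℝ) < 2 ^ (q - 4) := by positivity
  rw [← mul_div_assoc, div_le_div_iff₀ h2 h1]
  nlinarith [mul_le_mul_of_nonneg_left h ha]

/-- the constant -/
noncomputable def KK (P : Par) : ℝ := (16 * 2 ^ (P.c0 + 2) + 19) * (17600 * 2 ^ (P.c0 + 2))

lemma KK_pos (P : Par) : 0 < KK P := by unfold KK; positivity

lemma prod_le (P : Par) (u q : ℕ) (θ c : ℝ) (hθ : 0 < θ) (hq : q0 P u ≤ q) (hc : c ≤ 19) :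
    (2 ^ q1 P u / 2 ^ (q - 4) + c) * cq P u q θ ≤ KK P * (XX P u ^ 62)⁻¹ / θ := by
  set X := XX P u with hX
  have hX1 : 1 ≤ X := XX_one P u
  set r : ℝ := (2:ℝ) ^ q1 P u / 2 ^ q with hr
  have hr0 : 0 < r := by positivity
  set T : ℝ := 2 ^ (P.c0 + 2) with hT
  have hT0 : 0 < T := by positivity
  have hrT : r ≤ T * X := ratio_le P u q hq
  have h1 : (2:ℝ) ^ q1 P u / 2 ^ (q - 4) + c ≤ (16 * T + 19) * X := by
    have := sub4 ((2:ℝ) ^ q1 P u) (by positivity) q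
    have h16 : 16 * r ≤ 16 * (T * X) := by linarith
    nlinarith
  have h2 : cq P u q θ = 17600 * r * (X ^ 64)⁻¹ / θ := by
    unfold cq
    rw [mul_assoc, dd_eq, et_eq, ← hX, ← hr]
    field_simp
    ring
  have h3 : cq P u q θ ≤ 17600 * (T * X) * (X ^ 64)⁻¹ / θ := by
    rw [h2]
    gcongr
  have h4 : 0 ≤ cq P u q θ := by rw [h2]; positivity
  calc (2 ^ q1 P u / 2 ^ (q - 4) + c) * cq P u q θ
      ≤ ((16 * T + 19) * X) * (17600 * (T * X) * (X ^ 64)⁻¹ / θ) := by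
        apply mul_le_mul h1 h3 h4 (by positivity)
    _ = KK P * (X ^ 62)⁻¹ / θ := by
        unfold KK
        rw [← hT]
        have : X ≠ 0 := by positivity
        field_simp
  
theorem hEN2 : StEN2 := by
  intro P
  have hg := g_pos P
  set B : ℝ := 4 * (P.c0 + 3) * KK P with hB
  have hB0 : 0 < B := by
    have := KK_pos P
    positivity
  have hr1 : (2:ℝ) ^ (-(16 * P.g)) < 1 := Real.rpow_lt_one_of_one_lt_of_neg (by norm_num) (by linarith)
  have hr0 : (0:ℝ) ≤ (2:ℝ) ^ (-(16 * P.g)) := by positivity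
  have ht := (tendsto_self_mul_const_pow_of_lt_one hr0 hr1).const_mul B
  rw [mul_zero] at ht
  obtain ⟨u₀, hu₀⟩ := eventually_atTop.1 (ht.eventually (ge_mem_nhds (show (0:ℝ) < 1 by norm_num)))
  refine ⟨max 1 u₀, le_max_left _ _, ?_⟩
  intro u θ hu hθ1
  have hu1 : 1 ≤ u := le_trans (le_max_left _ _) hu
  have hu1' : (1:ℝ) ≤ u := by exact_mod_cast hu1
  have hkey0 := hu₀ u (le_trans (le_max_right _ _) hu)
  set X := XX P u with hX
  have hX1 : 1 ≤ X := XX_one P u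
  have hX0 : 0 < X := by linarith
  have hpow : ((2:ℝ) ^ (-(16 * P.g))) ^ u = (X ^ 16)⁻¹ := by
    have := XX_pow P u 16
    rw [← hX] at this
    rw [← this, ← Real.rpow_natCast, ← Real.rpow_mul (by norm_num)]
    congr 1
    push_cast
    ring
  have hkey : B * u ≤ X ^ 16 := by
    rw [hpow] at hkey0
    have hX16 : 0 < X ^ 16 := by positivity
    have : B * (u * (X ^ 16)⁻¹) = B * u / X ^ 16 := by field_simp
    rw [this, div_le_one hX16] at hkey0
    exact hkey0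
  have e8 : (2:ℝ) ^ (-(8 * P.g * u)) = (X ^ 8)⁻¹ := by
    have := XX_pow P u 8
    exact_mod_cast this
  have e30 : (2:ℝ) ^ (-(30 * P.g * u)) = (X ^ 30)⁻¹ := by
    have := XX_pow P u 30
    exact_mod_cast this
  have e1 : (2:ℝ) ^ (-(P.g * u)) = X⁻¹ := by
    have := XX_pow P u 1
    simpa using this
  have hK := KK_pos P
  have hc0 : (0:ℝ) ≤ P.c0 := Nat.cast_nonneg _
  refine ⟨?_, ?_⟩
  · intro hθ
    rw [e8] at hθ
    have hθ0 : 0 < θ := lt_of_lt_of_le (by positivity) hθ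
    have hθi : 1 / θ ≤ X ^ 8 := by
      rw [div_le_iff₀ hθ0]
      have : (X ^ 8)⁻¹ * X ^ 8 = 1 := by field_simp
      nlinarith [mul_le_mul_of_nonneg_right hθ (show (0:ℝ) ≤ X ^ 8 by positivity)]
    have hsum : ∑ q ∈ Finset.Ico (q0 P u) (q1 P u), (2 ^ q1 P u / 2 ^ (q - 4) + 1) * cq P u q θ ≤
        ((P.c0 + 3) * u) * (KK P * (X ^ 62)⁻¹ / θ) := by
      calc ∑ q ∈ Finset.Ico (q0 P u) (q1 P u), (2 ^ q1 P u / 2 ^ (q - 4) + 1) * cq P u q θ
          ≤ ∑ q ∈ Finset.Ico (q0 P u) (q1 P u), KK P * (X ^ 62)⁻¹ / θ := by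
            apply Finset.sum_le_sum
            intro q hq
            exact prod_le P u q θ 1 hθ0 (Finset.mem_Ico.1 hq).1 (by norm_num)
        _ = ((q1 P u - q0 P u : ℕ) : ℝ) * (KK P * (X ^ 62)⁻¹ / θ) := by
            rw [Finset.sum_const, Nat.card_Ico, nsmul_eq_mul]
        _ ≤ _ := by
            apply mul_le_mul_of_nonneg_right _ (by positivity)
            have hgap := gap P u
            have hgl := g_lt P
            rcases le_total (q0 P u) (q1 P u) with h | h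
            · rw [Nat.cast_sub h]
              nlinarith [mul_le_mul_of_nonneg_right hgl.le (show (0:ℝ) ≤ u by linarith)]
            · rw [Nat.sub_eq_zero_of_le h]
              push_cast
              positivity
    rw [e30]
    calc 4 / θ * ∑ q ∈ Finset.Ico (q0 P u) (q1 P u), (2 ^ q1 P u / 2 ^ (q - 4) + 1) * cq P u q θ
        ≤ 4 / θ * (((P.c0 + 3) * u) * (KK P * (X ^ 62)⁻¹ / θ)) :=
          mul_le_mul_of_nonneg_left hsum (by positivity)
      _ = (B * u) * (1 / θ) * (1 / θ) * (X ^ 62)⁻¹ := by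
          rw [hB]; ring
      _ ≤ X ^ 16 * X ^ 8 * X ^ 8 * (X ^ 62)⁻¹ := by
          gcongr
      _ = (X ^ 30)⁻¹ := by
          field_simp
          try ring
  · intro hθ q hq
    rw [e1] at hθ
    have hθ0 : 0 < θ := lt_of_lt_of_le (by positivity) hθ
    have hθi : 1 / θ ≤ X := by
      rw [div_le_iff₀ hθ0]
      have : X⁻¹ * X = 1 := by field_simp
      nlinarith [mul_le_mul_of_nonneg_right hθ (show (0:ℝ) ≤ X by positivity)]
    rw [e1]
    have h4K : 4 * KK P ≤ X ^ 16 := by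
      refine le_trans ?_ hkey
      rw [hB]
      nlinarith [mul_nonneg hc0 hK.le, mul_nonneg (mul_nonneg (by linarith : (0:ℝ) ≤ P.c0 + 3) hK.le) (by linarith : (0:ℝ) ≤ (u:ℝ) - 1)]
    calc (2 ^ q1 P u / 2 ^ (q - 4) + 19) * cq P u q θ
        ≤ KK P * (X ^ 62)⁻¹ / θ := prod_le P u q θ 19 hθ0 (Finset.mem_Ico.1 hq).1 le_rfl
      _ = (4 * KK P) * (1 / θ) * (X ^ 62)⁻¹ / 4 := by ring
      _ ≤ X ^ 16 * X * (X ^ 62)⁻¹ / 4 := by gcongr
      _ = (X ^ 45)⁻¹ / 4 := by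
          field_simp
          try ring
      _ ≤ (X ^ 2)⁻¹ / 4 := by
          gcongr
          norm_num
      _ = X⁻¹ * X⁻¹ / 4 := by
          rw [pow_two, mul_inv]
      _ ≤ X⁻¹ * θ / 4 := by gcongr

end Pool.Agent.Helper21.EP
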